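import Mathlib

/-!
# MP_f43ce7_an, Q1 and Q2: maximal stress far from the nearest boundary point
-/

open Set Metric Filter Topology
open scoped ComplexConjugate

namespace Pool.Agent.Results.MP_f43ce7_an.MaximalStressLocation

/-! ### Definitions.  The plane is `ℂ`. -/

/-- The partial derivative in the direction of the first axis. -/
noncomputable def dx (u : ℂ → ℝ) (z : ℂ) : ℝ := deriv (fun t : ℝ => u ⟨t, z.im⟩) z.re

/-- The partial derivative in the direction of the second axis. -/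
noncomputable def dy (u : ℂ → ℝ) (z : ℂ) : ℝ := deriv (fun t : ℝ => u ⟨z.re, t⟩) z.im

/-- The Laplacian. -/
noncomputable def lap (u : ℂ → ℝ) (z : ℂ) : ℝ := dx (dx u) z + dy (dy u) z

/-- The length of the gradient. -/
noncomputable def gradNorm (u : ℂ → ℝ) (z : ℂ) : ℝ := √(dx u z ^ 2 + dy u z ^ 2)

/-- `u` is the torsion function of `Ω`. -/
def IsTorsion (Ω : Set ℂ) (u : ℂ → ℝ) : Prop :=
  ContDiffOn ℝ 2 u Ω ∧ ContinuousOn u (closure Ω) ∧ (∀ z ∈ Ω, -lap u z = 2) ∧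
    ∀ z ∈ frontier Ω, u z = 0

/-- The boundary of `Ω` is of class `C²`: near every boundary point `Ω` is the set where a `C²`
function with non-vanishing differential at this point is positive. -/
def C2Boundary (Ω : Set ℂ) : Prop :=
  ∀ z ∈ frontier Ω, ∃ F : ℂ → ℝ, ContDiff ℝ 2 F ∧ F z = 0 ∧ fderiv ℝ F z ≠ 0 ∧
    ∀ᶠ y in 𝓝 z, (y ∈ Ω ↔ 0 < F y)

/-- The boundary arc `Γ` in the closed first quadrant. -/
def Gam (Ω : Set ℂ) : Set ℂ := frontier Ω ∩ {z | 0 ≤ z.re ∧ 0 ≤ z.im}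

/-! ### The example -/

/-- the small parameter -/
noncomputable def e : ℝ := 1 / 10 ^ 6

/-- the polynomial -/
def P (z : ℂ) : ℂ := 3 * z ^ 2 - 8 * z ^ 4 - z ^ 6

/-- its derivative -/
def P' (z : ℂ) : ℂ := 6 * z - 32 * z ^ 3 - 6 * z ^ 5

/-- the torsion function -/
noncomputable def u (z : ℂ) : ℝ := (1 - ‖z‖ ^ 2) / 2 + e * (P z).re

/-- the domain -/
def Om : Set ℂ := {z | ‖z‖ < 5 / 4 ∧ 0 < u z}

/-- the real part of `P` in terms of `a = x² - y²` and `s = x² + y²` -/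
def H (a s : ℝ) : ℝ := 3 * a - 16 * a ^ 2 + 8 * s ^ 2 - 4 * a ^ 3 + 3 * a * s ^ 2

theorem reP (z : ℂ) : (P z).re = H (z.re ^ 2 - z.im ^ 2) (z.re ^ 2 + z.im ^ 2) := by
  unfold P H
  simp [pow_succ, Complex.mul_re, Complex.mul_im]
  ring

theorem norm_sq' (z : ℂ) : ‖z‖ ^ 2 = z.re ^ 2 + z.im ^ 2 := by
  rw [Complex.sq_norm, Complex.normSq_apply]; ring

theorem u_eq (z : ℂ) : u z = (1 - (z.re ^ 2 + z.im ^ 2)) / 2 +
    e * H (z.re ^ 2 - z.im ^ 2) (z.re ^ 2 + z.im ^ 2) := by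
  unfold u
  rw [norm_sq', reP]

theorem u_cd : ContDiff ℝ 2 u := by
  have : u = fun z : ℂ => (1 - (z.re ^ 2 + z.im ^ 2)) / 2 +
      e * H (z.re ^ 2 - z.im ^ 2) (z.re ^ 2 + z.im ^ 2) := funext u_eq
  rw [this]
  have h1 : ContDiff ℝ 2 (fun z : ℂ => z.re) := Complex.reCLM.contDiff
  have h2 : ContDiff ℝ 2 (fun z : ℂ => z.im) := Complex.imCLM.contDiff
  unfold H
  fun_prop

theorem u_cont : Continuous u := u_cd.continuous

theorem u_zero : u 0 = 1 / 2 := by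
  rw [u_eq]; simp [H]

/-- the differential of `u` -/
noncomputable def L (z w : ℂ) : ℝ := -(z.re * w.re + z.im * w.im) + e * (P' z * w).re

/-- The supporting inequality. -/
theorem support {z z' : ℂ} (hz : ‖z‖ ≤ 5 / 4) (hz' : ‖z'‖ ≤ 5 / 4) :
    u z' ≤ u z + L z (z' - z) := by
  obtain ⟨w, rfl⟩ : ∃ w, z' = z + w := ⟨z' - z, by ring⟩
  rw [add_sub_cancel_left]
  have hw : ‖w‖ ≤ 5 / 2 := by
    have : w = (z + w) - z := by ring
    rw [this]
    refine (norm_sub_le _ _).trans (by linarith)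
  set Q : ℂ := 3 - 8 * (6 * z ^ 2 + 4 * z * w + w ^ 2) -
    (15 * z ^ 4 + 20 * z ^ 3 * w + 15 * z ^ 2 * w ^ 2 + 6 * z * w ^ 3 + w ^ 4) with hQ
  have hP : P (z + w) = P z + P' z * w + w ^ 2 * Q := by
    rw [hQ]; unfold P P'; ring
  have hn0 := norm_nonneg z
  have hm0 := norm_nonneg w
  have hQn : ‖Q‖ ≤ 700 := by
    have h1 : ‖Q‖ ≤ 3 + 8 * (6 * ‖z‖ ^ 2 + 4 * ‖z‖ * ‖w‖ + ‖w‖ ^ 2) +
        (15 * ‖z‖ ^ 4 + 20 * ‖z‖ ^ 3 * ‖w‖ + 15 * ‖z‖ ^ 2 * ‖w‖ ^ 2 + 6 * ‖z‖ * ‖w‖ ^ 3 +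
        ‖w‖ ^ 4) := by
      rw [hQ]
      refine (norm_sub_le _ _).trans (add_le_add ((norm_sub_le _ _).trans (add_le_add ?_ ?_)) ?_)
      · simp
      · rw [norm_mul]
        refine mul_le_mul (by simp) ?_ (norm_nonneg _) (by norm_num)
        refine (norm_add_le _ _).trans (add_le_add ((norm_add_le _ _).trans
          (add_le_add ?_ ?_)) ?_) <;> simp [norm_pow]
      · refine (norm_add_le _ _).trans (add_le_add ((norm_add_le _ _).trans
          (add_le_add ((norm_add_le _ _).trans (add_le_add ((norm_add_le _ _).trans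
          (add_le_add ?_ ?_)) ?_)) ?_)) ?_) <;> simp [norm_pow]
    have a2 : ‖z‖ ^ 2 ≤ 25 / 16 := by nlinarith
    have a3 : ‖z‖ ^ 3 ≤ 2 := by nlinarith
    have a4 : ‖z‖ ^ 4 ≤ 2.45 := by nlinarith [sq_nonneg ‖z‖]
    have b2 : ‖w‖ ^ 2 ≤ 25 / 4 := by nlinarith
    have b3 : ‖w‖ ^ 3 ≤ 125 / 8 := by nlinarith
    have b4 : ‖w‖ ^ 4 ≤ 39.1 := by nlinarith [sq_nonneg ‖w‖]
    have c1 : ‖z‖ * ‖w‖ ≤ 5 / 4 * (5 / 2) := mul_le_mul hz hw hm0 (by norm_num)
    have c2 : ‖z‖ ^ 3 * ‖w‖ ≤ 2 * (5 / 2) := mul_le_mul a3 hw hm0 (by norm_num)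
    have c3 : ‖z‖ ^ 2 * ‖w‖ ^ 2 ≤ 25 / 16 * (25 / 4) := mul_le_mul a2 b2 (by positivity)
      (by norm_num)
    have c4 : ‖z‖ * ‖w‖ ^ 3 ≤ 5 / 4 * (125 / 8) := mul_le_mul hz b3 (by positivity) (by norm_num)
    nlinarith
  have hre : (w ^ 2 * Q).re ≤ 700 * ‖w‖ ^ 2 := by
    refine (Complex.re_le_norm _).trans ?_
    rw [norm_mul, norm_pow]
    nlinarith [sq_nonneg ‖w‖]
  have hns : ‖z + w‖ ^ 2 = ‖z‖ ^ 2 + 2 * (z.re * w.re + z.im * w.im) + ‖w‖ ^ 2 := by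
    rw [norm_sq', norm_sq', norm_sq', Complex.add_re, Complex.add_im]; ring
  unfold u L
  rw [hns, hP, Complex.add_re, Complex.add_re]
  have he : e = 1 / 10 ^ 6 := rfl
  have hek : e * (w ^ 2 * Q).re ≤ e * (700 * ‖w‖ ^ 2) :=
    mul_le_mul_of_nonneg_left hre (by rw [he]; norm_num)
  have : e * (700 * ‖w‖ ^ 2) ≤ ‖w‖ ^ 2 / 2 := by rw [he]; nlinarith [sq_nonneg ‖w‖]
  linarith

theorem L_add (z w w' : ℂ) (a b : ℝ) : L z (a • w + b • w') = a * L z w + b * L z w' := by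
  unfold L
  simp only [Complex.add_re, Complex.add_im, Complex.real_smul, Complex.mul_re, Complex.mul_im,
    Complex.ofReal_re, Complex.ofReal_im]
  ring

theorem conc {x y : ℂ} (hx : ‖x‖ ≤ 5 / 4) (hy : ‖y‖ ≤ 5 / 4) {a b : ℝ} (ha : 0 ≤ a)
    (hb : 0 ≤ b) (hab : a + b = 1) : a * u x + b * u y ≤ u (a • x + b • y) := by
  have hm : ‖a • x + b • y‖ ≤ 5 / 4 := by
    have := convex_closedBall (0 : ℂ) (5 / 4) (mem_closedBall_zero_iff.2 hx)
      (mem_closedBall_zero_iff.2 hy) ha hb hab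
    exact mem_closedBall_zero_iff.1 this
  set m := a • x + b • y with hmdef
  have h1 := support hm hx
  have h2 := support hm hy
  have h3 := L_add m (x - m) (y - m) a b
  have h4 : a • (x - m) + b • (y - m) = 0 := by
    have : a • (x - m) + b • (y - m) = (a • x + b • y) - (a + b) • m := by module
    rw [this, hab, one_smul, ← hmdef, sub_self]
  have h5 : L m 0 = 0 := by unfold L; simp
  rw [h4, h5] at h3
  have h6 := mul_le_mul_of_nonneg_left h1 ha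
  have h7 := mul_le_mul_of_nonneg_left h2 hb
  have h8 : a * u m + b * u m = u m := by rw [← add_mul, hab, one_mul]
  linarith

theorem u_bound {z : ℂ} (hz : ‖z‖ ≤ 5 / 4) : |u z - (1 - ‖z‖ ^ 2) / 2| ≤ 30 * e := by
  have hn0 := norm_nonneg z
  have h1 : |(P z).re| ≤ 30 := by
    refine (Complex.abs_re_le_norm _).trans ?_
    have : ‖P z‖ ≤ 3 * ‖z‖ ^ 2 + 8 * ‖z‖ ^ 4 + ‖z‖ ^ 6 := by
      unfold P
      refine (norm_sub_le _ _).trans (add_le_add ((norm_sub_le _ _).trans (add_le_add ?_ ?_)) ?_)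
        <;> simp [norm_pow]
    have a2 : ‖z‖ ^ 2 ≤ 25 / 16 := by nlinarith
    have a4 : ‖z‖ ^ 4 ≤ (25 / 16) ^ 2 := by
      have := pow_le_pow_left₀ (sq_nonneg ‖z‖) a2 2
      rwa [← pow_mul] at this
    have a6 : ‖z‖ ^ 6 ≤ (25 / 16) ^ 3 := by
      have := pow_le_pow_left₀ (sq_nonneg ‖z‖) a2 3
      rwa [← pow_mul] at this
    norm_num at a4 a6
    linarith
  unfold u
  rw [add_sub_cancel_left, abs_mul, abs_of_pos (by unfold e; norm_num : 0 < e)]
  have he : 0 < e := by unfold e; norm_num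
  nlinarith

theorem isOpen_Om : IsOpen Om :=
  (isOpen_lt continuous_norm continuous_const).inter (isOpen_lt continuous_const u_cont)

theorem frontier_iff (z : ℂ) : z ∈ frontier Om ↔ ‖z‖ < 5 / 4 ∧ u z = 0 := by
  have he : e = 1 / 10 ^ 6 := rfl
  rw [isOpen_Om.frontier_eq]
  constructor
  · rintro ⟨h1, h2⟩
    have hcl : closure Om ⊆ {z | ‖z‖ ≤ 5 / 4 ∧ 0 ≤ u z} := by
      apply closure_minimal
      · intro w hw; exact ⟨hw.1.le, hw.2.le⟩
      · exact (isClosed_le continuous_norm continuous_const).inter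
          (isClosed_le continuous_const u_cont)
    obtain ⟨h3, h4⟩ := hcl h1
    have h5 := abs_le.1 (u_bound h3)
    have h6 : ‖z‖ < 5 / 4 := by
      rcases h3.eq_or_lt with h | h
      · exfalso
        rw [h, he] at h5
        norm_num at h5
        linarith [h5.2]
      · exact h
    refine ⟨h6, le_antisymm ?_ h4⟩
    by_contra hcon
    exact h2 ⟨h6, not_le.1 hcon⟩
  · rintro ⟨h1, h2⟩
    refine ⟨?_, fun h => by have := h.2; linarith⟩
    have hcont : Continuous (fun t : ℝ => t • z) := by fun_prop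
    have hmem : (1:ℝ) ∈ closure (Ico (0:ℝ) 1) := by
      rw [closure_Ico (by norm_num)]; exact ⟨zero_le_one, le_refl _⟩
    have hmap : MapsTo (fun t : ℝ => t • z) (Ico (0:ℝ) 1) Om := by
      intro t ht
      have h3 := conc (x := z) (y := 0) h1.le (by rw [norm_zero]; norm_num) ht.1 (by linarith [ht.2] : 0 ≤ 1 - t)
        (by ring)
      rw [smul_zero, add_zero, u_zero, h2] at h3
      refine ⟨?_, by have := ht.2; simp only; linarith⟩
      simp only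
      rw [norm_smul, Real.norm_eq_abs, abs_of_nonneg ht.1]
      have := norm_nonneg z
      nlinarith [ht.2, ht.1]
    have := map_mem_closure hcont hmem hmap
    rwa [one_smul] at this

/-- On the boundary the squared distance to the origin is close to one. -/
theorem s_close {z : ℂ} (hz : z ∈ frontier Om) : |‖z‖ ^ 2 - 1| ≤ 1 / 10000 := by
  obtain ⟨h1, h2⟩ := (frontier_iff z).1 hz
  have h3 := abs_le.1 (u_bound h1.le)
  rw [h2] at h3
  have he : e = 1 / 10 ^ 6 := rfl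
  rw [he] at h3
  rw [abs_le]
  constructor <;> linarith [h3.1, h3.2]

theorem ray_in {z : ℂ} (hz : ‖z‖ ≤ 5 / 4) (hu : u z < 0) :
    ∃ t : ℝ, 0 < t ∧ t < 1 ∧ t • z ∈ frontier Om := by
  have hcont : ContinuousOn (fun t : ℝ => u (t • z)) (Icc 0 1) :=
    (u_cont.comp (by fun_prop)).continuousOn
  have h0 : u ((0:ℝ) • z) = 1 / 2 := by rw [zero_smul, u_zero]
  obtain ⟨t, ht, hut⟩ := intermediate_value_Icc' zero_le_one hcont
    (show (0:ℝ) ∈ Icc (u ((1:ℝ) • z)) (u ((0:ℝ) • z)) from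
      ⟨by rw [one_smul]; exact hu.le, by rw [h0]; norm_num⟩)
  have hut : u (t • z) = 0 := hut
  have ht0 : 0 < t := by
    rcases ht.1.eq_or_lt with h | h
    · rw [← h, h0] at hut; norm_num at hut
    · exact h
  have ht1 : t < 1 := by
    rcases ht.2.eq_or_lt with h | h
    · rw [h, one_smul] at hut; linarith
    · exact h
  refine ⟨t, ht0, ht1, (frontier_iff _).2 ⟨?_, hut⟩⟩
  rw [norm_smul, Real.norm_eq_abs, abs_of_pos ht0]
  have := norm_nonneg z
  nlinarith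

theorem ray_out {z : ℂ} (hz : ‖z‖ ≤ 5 / 4) (hz0 : z ≠ 0) (hu : 0 < u z) :
    ∃ t : ℝ, 1 < t ∧ t • z ∈ frontier Om := by
  have hn : 0 < ‖z‖ := norm_pos_iff.2 hz0
  set T := 5 / 4 / ‖z‖ with hT
  have hT1 : 1 ≤ T := by rw [hT, le_div_iff₀ hn]; linarith
  have hTn : ‖T • z‖ = 5 / 4 := by
    rw [norm_smul, Real.norm_eq_abs, abs_of_pos (by linarith), hT]; field_simp
  have hneg : u (T • z) < 0 := by
    have h := abs_le.1 (u_bound hTn.le)
    rw [hTn] at h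
    have he : e = 1 / 10 ^ 6 := rfl
    rw [he] at h
    linarith [h.2]
  have hcont : ContinuousOn (fun t : ℝ => u (t • z)) (Icc 1 T) :=
    (u_cont.comp (by fun_prop)).continuousOn
  obtain ⟨t, ht, hut⟩ := intermediate_value_Icc' hT1 hcont
    (show (0:ℝ) ∈ Icc (u (T • z)) (u ((1:ℝ) • z)) from
      ⟨hneg.le, by rw [one_smul]; exact hu.le⟩)
  have hut : u (t • z) = 0 := hut
  have ht1 : 1 < t := by
    rcases ht.1.eq_or_lt with h | h
    · rw [← h, one_smul] at hut; linarith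
    · exact h
  have htT : t < T := by
    rcases ht.2.eq_or_lt with h | h
    · rw [h] at hut; linarith
    · exact h
  refine ⟨t, ht1, (frontier_iff _).2 ⟨?_, hut⟩⟩
  rw [norm_smul, Real.norm_eq_abs, abs_of_pos (by linarith), ← hTn, norm_smul, Real.norm_eq_abs,
    abs_of_pos (by linarith : 0 < T)]
  exact mul_lt_mul_of_pos_right htT hn

theorem bounded_Om : Bornology.IsBounded Om := by
  apply (isBounded_closedBall (x := (0:ℂ)) (r := 5 / 4)).subset
  intro z hz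
  rw [mem_closedBall, dist_zero_right]
  exact hz.1.le

theorem compact_Gam : IsCompact (Gam Om) := by
  have h1 : IsCompact (frontier Om) := by
    apply Metric.isCompact_of_isClosed_isBounded isClosed_frontier
    exact bounded_Om.closure.subset frontier_subset_closure
  apply h1.inter_right
  exact (isClosed_le continuous_const Complex.continuous_re).inter
    (isClosed_le continuous_const Complex.continuous_im)

/-- The boundary point on the positive first axis. -/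
theorem axis_point : ∃ x : ℝ, 0 < x ∧ (x : ℂ) ∈ Gam Om := by
  have h1 : ‖((5 / 4 : ℝ) : ℂ)‖ = 5 / 4 := by
    rw [Complex.norm_real, Real.norm_eq_abs, abs_of_pos (by norm_num)]
  have h2 : u ((5 / 4 : ℝ) : ℂ) < 0 := by
    have h := abs_le.1 (u_bound h1.le)
    rw [h1] at h
    have he : e = 1 / 10 ^ 6 := rfl
    rw [he] at h
    norm_num at h ⊢
    linarith [h.2]
  obtain ⟨t, ht0, ht1, ht⟩ := ray_in h1.le h2
  have e1 : t • ((5 / 4 : ℝ) : ℂ) = ((t * (5 / 4) : ℝ) : ℂ) := by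
    rw [Complex.real_smul, ← Complex.ofReal_mul]
  rw [e1] at ht
  exact ⟨t * (5 / 4), by positivity, ht, by simp; positivity, by simp⟩

/-- The point of the closed first quadrant with given `s` and `a`. -/
noncomputable def pnt (a s : ℝ) : ℂ := ⟨√((s + a) / 2), √((s - a) / 2)⟩

theorem pnt_spec {a s : ℝ} (h : |a| ≤ s) : 0 ≤ (pnt a s).re ∧ 0 ≤ (pnt a s).im ∧
    (pnt a s).re ^ 2 - (pnt a s).im ^ 2 = a ∧ (pnt a s).re ^ 2 + (pnt a s).im ^ 2 = s := by
  have h1 := abs_le.1 h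
  unfold pnt
  simp only
  rw [Real.sq_sqrt (by linarith [h1.1]), Real.sq_sqrt (by linarith [h1.2])]
  exact ⟨Real.sqrt_nonneg _, Real.sqrt_nonneg _, by ring, by ring⟩

theorem pnt_norm {a s : ℝ} (h : |a| ≤ s) : ‖pnt a s‖ ^ 2 = s := by
  rw [norm_sq']; exact (pnt_spec h).2.2.2

theorem u_pnt {a s : ℝ} (h : |a| ≤ s) : u (pnt a s) = (1 - s) / 2 + e * H a s := by
  rw [u_eq, (pnt_spec h).2.2.1, (pnt_spec h).2.2.2]

/-- Scaling inside the quadrant. -/
theorem smul_quad {z : ℂ} (h : 0 ≤ z.re ∧ 0 ≤ z.im) {t : ℝ} (ht : 0 ≤ t) :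
    0 ≤ (t • z).re ∧ 0 ≤ (t • z).im := by
  rw [Complex.smul_re, Complex.smul_im]
  exact ⟨mul_nonneg ht h.1, mul_nonneg ht h.2⟩

theorem quad_ext {z w : ℂ} (hz : 0 ≤ z.re ∧ 0 ≤ z.im) (hw : 0 ≤ w.re ∧ 0 ≤ w.im)
    (h1 : z.re ^ 2 - z.im ^ 2 = w.re ^ 2 - w.im ^ 2)
    (h2 : z.re ^ 2 + z.im ^ 2 = w.re ^ 2 + w.im ^ 2) : z = w := by
  apply Complex.ext
  · exact (sq_eq_sq₀ hz.1 hw.1).1 (by linarith)
  · exact (sq_eq_sq₀ hz.2 hw.2).1 (by linarith)

/-- At a farthest point no point with the same distance has positive `u`. -/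
theorem far_prop {z : ℂ} (hz : z ∈ Gam Om) (hmax : ∀ y ∈ Gam Om, ‖y‖ ≤ ‖z‖) {a : ℝ}
    (ha : |a| ≤ ‖z‖ ^ 2) : u (pnt a (‖z‖ ^ 2)) ≤ 0 := by
  by_contra hcon
  push Not at hcon
  have hs := abs_le.1 (s_close hz.1)
  have hn : ‖pnt a (‖z‖ ^ 2)‖ = ‖z‖ := by
    have := pnt_norm ha
    exact (sq_eq_sq₀ (norm_nonneg _) (norm_nonneg _)).1 this
  have hz1 := ((frontier_iff z).1 hz.1).1
  have hne : pnt a (‖z‖ ^ 2) ≠ 0 := by
    intro h
    rw [h, norm_zero] at hn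
    rw [← hn] at hs
    norm_num at hs
  obtain ⟨t, ht, hf⟩ := ray_out (by rw [hn]; exact hz1.le) hne hcon
  have hq := pnt_spec ha
  have := hmax _ ⟨hf, smul_quad ⟨hq.1, hq.2.1⟩ (by linarith)⟩
  rw [norm_smul, Real.norm_eq_abs, abs_of_pos (by linarith), hn] at this
  have hzp : 0 < ‖z‖ := by rw [← hn]; exact norm_pos_iff.2 hne
  nlinarith

/-- At a nearest point no point with the same distance has negative `u`. -/
theorem near_prop {z : ℂ} (hz : z ∈ Gam Om) (hmin : ∀ y ∈ Gam Om, ‖z‖ ≤ ‖y‖) {a : ℝ}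
    (ha : |a| ≤ ‖z‖ ^ 2) : 0 ≤ u (pnt a (‖z‖ ^ 2)) := by
  by_contra hcon
  push Not at hcon
  have hs := abs_le.1 (s_close hz.1)
  have hn : ‖pnt a (‖z‖ ^ 2)‖ = ‖z‖ := by
    have := pnt_norm ha
    exact (sq_eq_sq₀ (norm_nonneg _) (norm_nonneg _)).1 this
  have hz1 := ((frontier_iff z).1 hz.1).1
  obtain ⟨t, ht0, ht1, hf⟩ := ray_in (by rw [hn]; exact hz1.le) hcon
  have hq := pnt_spec ha
  have := hmin _ ⟨hf, smul_quad ⟨hq.1, hq.2.1⟩ ht0.le⟩
  rw [norm_smul, Real.norm_eq_abs, abs_of_pos ht0, hn] at this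
  have hzp : 0 < ‖z‖ := by
    rcases (norm_nonneg z).eq_or_lt with h | h
    · rw [← h] at hs; norm_num at hs
    · exact h
  nlinarith

/-- basic facts about a boundary point -/
theorem basic {z : ℂ} (hz : z ∈ frontier Om) : ∃ a s : ℝ, a = z.re ^ 2 - z.im ^ 2 ∧
    s = z.re ^ 2 + z.im ^ 2 ∧ ‖z‖ ^ 2 = s ∧ |s - 1| ≤ 1 / 10000 ∧ |a| ≤ s ∧
    (1 - s) / 2 + e * H a s = 0 := by
  have h1 := s_close hz
  rw [norm_sq'] at h1
  refine ⟨_, _, rfl, rfl, norm_sq' z, h1, ?_, ?_⟩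
  · rw [abs_le]; constructor <;> nlinarith [sq_nonneg z.re, sq_nonneg z.im]
  · rw [← u_eq]; exact ((frontier_iff z).1 hz).2

theorem epos : 0 < e := by unfold e; norm_num

/-- The farthest point is unique and lies below the diagonal. -/
theorem far_unique {z y : ℂ} (hz : z ∈ Gam Om) (hmax : ∀ y ∈ Gam Om, ‖y‖ ≤ ‖z‖)
    (hy : y ∈ Gam Om) (hyz : ‖y‖ = ‖z‖) : y = z := by
  obtain ⟨a, s, ha, hs, hns, hs1, has, hF⟩ := basic hz.1
  obtain ⟨b, s', hb, hs', hns', hs1', hbs, hF'⟩ := basic hy.1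
  have hss : s' = s := by rw [← hns, ← hns', hyz]
  subst hss
  by_contra hne
  have hab : a ≠ b := by
    intro h
    exact hne (quad_ext hy.2 hz.2 (by rw [← ha, ← hb, h]) (by rw [← hs, ← hs']))
  have h1 := abs_le.1 has
  have h2 := abs_le.1 hbs
  have h3 := abs_le.1 hs1
  have hm : |(a + b) / 2| ≤ ‖z‖ ^ 2 := by
    rw [hns, abs_le]; constructor <;> linarith [h1.1, h1.2, h2.1, h2.2]
  have h4 := far_prop hz hmax hm
  rw [u_pnt hm, hns] at h4
  have h5 : (H a s' + H b s') / 2 + (a - b) ^ 2 * (4 + 3 / 2 * (a + b)) ≤ H ((a + b) / 2) s' := by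
    unfold H
    nlinarith
  have h6 : 0 < (a - b) ^ 2 * (4 + 3 / 2 * (a + b)) := by
    apply mul_pos
    · have := sub_ne_zero.2 hab
      positivity
    · linarith [h1.1, h2.1, h3.2]
  have h7 := epos
  have h8 : e * ((H a s' + H b s') / 2) < e * H ((a + b) / 2) s' :=
    mul_lt_mul_of_pos_left (by linarith) h7
  nlinarith

theorem far_loc {z : ℂ} (hz : z ∈ Gam Om) (hmax : ∀ y ∈ Gam Om, ‖y‖ ≤ ‖z‖) :
    0 < z.re ^ 2 - z.im ^ 2 := by
  obtain ⟨a, s, ha, hs, hns, hs1, has, hF⟩ := basic hz.1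
  rw [← ha]
  by_contra hcon
  push Not at hcon
  have h1 := abs_le.1 has
  have h3 := abs_le.1 hs1
  have hm : |s / 5| ≤ ‖z‖ ^ 2 := by
    rw [hns, abs_le]; constructor <;> linarith [h3.1, h3.2]
  have h4 := far_prop hz hmax hm
  rw [u_pnt hm, hns] at h4
  have h5 : H a s ≤ 8 * s ^ 2 := by
    unfold H
    have : 0 ≤ -a * (3 + 3 * s ^ 2 - 16 * a - 4 * a ^ 2) := by
      apply mul_nonneg (by linarith)
      nlinarith [h1.1, h3.2, h3.1]
    nlinarith
  have h6 : 8 * s ^ 2 < H (s / 5) s := by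
    unfold H
    have : 0 < s * (3 / 5 + 3 / 5 * s ^ 2 - 16 / 25 * s - 4 / 125 * s ^ 2) := by
      apply mul_pos (by linarith [h3.1])
      nlinarith [h3.1, h3.2]
    nlinarith
  have h8 : e * H a s < e * H (s / 5) s := mul_lt_mul_of_pos_left (by linarith) epos
  linarith

theorem near_loc {z : ℂ} (hz : z ∈ Gam Om) (hmin : ∀ y ∈ Gam Om, ‖z‖ ≤ ‖y‖) : z.re = 0 := by
  obtain ⟨a, s, ha, hs, hns, hs1, has, hF⟩ := basic hz.1
  by_contra hne
  have h1 := abs_le.1 has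
  have h3 := abs_le.1 hs1
  have hpos : 0 < a + s := by
    rw [ha, hs]
    have : 0 < z.re ^ 2 := by positivity
    linarith
  have hm : |-s| ≤ ‖z‖ ^ 2 := by
    rw [hns, abs_neg, abs_of_pos (by linarith [h3.1])]
  have h4 := near_prop hz hmin hm
  rw [u_pnt hm, hns] at h4
  have h5 : 0 < (a + s) * (3 - 16 * a + 16 * s - 4 * a ^ 2 + 4 * a * s - s ^ 2) := by
    apply mul_pos hpos
    nlinarith [h1.1, h1.2, h3.1, h3.2]
  have h6 : H (-s) s < H a s := by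
    unfold H
    nlinarith
  have h8 : e * H (-s) s < e * H a s := mul_lt_mul_of_pos_left h6 epos
  linarith

/-! ### The gradient -/

/-- the partial derivatives of `H` -/
def Ha (a s : ℝ) : ℝ := 3 - 32 * a - 12 * a ^ 2 + 3 * s ^ 2

def Hs (a s : ℝ) : ℝ := 16 * s + 6 * a * s

noncomputable def Ux (x y : ℝ) : ℝ :=
  -x + 2 * x * e * (Ha (x ^ 2 - y ^ 2) (x ^ 2 + y ^ 2) + Hs (x ^ 2 - y ^ 2) (x ^ 2 + y ^ 2))

noncomputable def Uy (x y : ℝ) : ℝ :=
  -y + 2 * y * e * (Hs (x ^ 2 - y ^ 2) (x ^ 2 + y ^ 2) - Ha (x ^ 2 - y ^ 2) (x ^ 2 + y ^ 2))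

theorem dx_u (z : ℂ) : dx u z = Ux z.re z.im := by
  unfold dx
  have : (fun t : ℝ => u ⟨t, z.im⟩) = fun t : ℝ => (1 - (t ^ 2 + z.im ^ 2)) / 2 +
      e * H (t ^ 2 - z.im ^ 2) (t ^ 2 + z.im ^ 2) := by
    funext t; rw [u_eq]
  rw [this]
  apply HasDerivAt.deriv
  have h1 : HasDerivAt (fun t : ℝ => t ^ 2) (2 * z.re) z.re := by
    simpa using hasDerivAt_pow 2 z.re
  have hS := h1.add_const (z.im ^ 2)
  have hA := h1.sub_const (z.im ^ 2)
  have hH : HasDerivAt (fun t : ℝ => H (t ^ 2 - z.im ^ 2) (t ^ 2 + z.im ^ 2)) _ z.re :=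
    (((((hA.const_mul 3).sub ((hA.pow 2).const_mul 16)).add ((hS.pow 2).const_mul 8)).sub
      ((hA.pow 3).const_mul 4)).add ((hA.const_mul 3).mul (hS.pow 2)))
  have := ((hS.const_sub 1).div_const 2).add (hH.const_mul e)
  refine this.congr_deriv ?_
  unfold Ux Ha Hs
  simp
  ring

theorem dy_u (z : ℂ) : dy u z = Uy z.re z.im := by
  unfold dy
  have : (fun t : ℝ => u ⟨z.re, t⟩) = fun t : ℝ => (1 - (z.re ^ 2 + t ^ 2)) / 2 +
      e * H (z.re ^ 2 - t ^ 2) (z.re ^ 2 + t ^ 2) := by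
    funext t; rw [u_eq]
  rw [this]
  apply HasDerivAt.deriv
  have h1 : HasDerivAt (fun t : ℝ => t ^ 2) (2 * z.im) z.im := by
    simpa using hasDerivAt_pow 2 z.im
  have hS := h1.const_add (z.re ^ 2)
  have hA := h1.const_sub (z.re ^ 2)
  have hH : HasDerivAt (fun t : ℝ => H (z.re ^ 2 - t ^ 2) (z.re ^ 2 + t ^ 2)) _ z.im :=
    (((((hA.const_mul 3).sub ((hA.pow 2).const_mul 16)).add ((hS.pow 2).const_mul 8)).sub
      ((hA.pow 3).const_mul 4)).add ((hA.const_mul 3).mul (hS.pow 2)))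
  have := ((hS.const_sub 1).div_const 2).add (hH.const_mul e)
  refine this.congr_deriv ?_
  unfold Uy Ha Hs
  simp
  ring

theorem lap_u (z : ℂ) : lap u z = -2 := by
  unfold lap
  have e1 : dx (dx u) z = -1 + 2 * e * (Ha (z.re ^ 2 - z.im ^ 2) (z.re ^ 2 + z.im ^ 2) +
      Hs (z.re ^ 2 - z.im ^ 2) (z.re ^ 2 + z.im ^ 2)) + 4 * z.re ^ 2 * e *
      (-16 - 18 * (z.re ^ 2 - z.im ^ 2) + 12 * (z.re ^ 2 + z.im ^ 2)) := by
    have : dx u = fun z => Ux z.re z.im := funext dx_u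
    rw [this]
    unfold dx Ux Ha Hs
    simp only
    apply HasDerivAt.deriv
    have h0 := hasDerivAt_id z.re
    have h1 : HasDerivAt (fun t : ℝ => t ^ 2) (2 * z.re) z.re := by
      simpa using hasDerivAt_pow 2 z.re
    have hS := h1.add_const (z.im ^ 2)
    have hA := h1.sub_const (z.im ^ 2)
    have hH1 : HasDerivAt (fun t : ℝ => 3 - 32 * (t ^ 2 - z.im ^ 2) -
        12 * (t ^ 2 - z.im ^ 2) ^ 2 + 3 * (t ^ 2 + z.im ^ 2) ^ 2) _ z.re :=
      ((((hA.const_mul 32).const_sub 3).sub ((hA.pow 2).const_mul 12)).add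
        ((hS.pow 2).const_mul 3))
    have hH2 : HasDerivAt (fun t : ℝ => 16 * (t ^ 2 + z.im ^ 2) + 6 * (t ^ 2 - z.im ^ 2) *
        (t ^ 2 + z.im ^ 2)) _ z.re := (hS.const_mul 16).add ((hA.const_mul 6).mul hS)
    have := h0.neg.add (((h0.const_mul 2).mul_const e).mul (hH1.add hH2))
    refine this.congr_deriv ?_
    simp
    ring
  have e2 : dy (dy u) z = -1 + 2 * e * (Hs (z.re ^ 2 - z.im ^ 2) (z.re ^ 2 + z.im ^ 2) -
      Ha (z.re ^ 2 - z.im ^ 2) (z.re ^ 2 + z.im ^ 2)) + 4 * z.im ^ 2 * e *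
      (-16 - 18 * (z.re ^ 2 - z.im ^ 2) - 12 * (z.re ^ 2 + z.im ^ 2)) := by
    have : dy u = fun z => Uy z.re z.im := funext dy_u
    rw [this]
    unfold dy Uy Ha Hs
    simp only
    apply HasDerivAt.deriv
    have h0 := hasDerivAt_id z.im
    have h1 : HasDerivAt (fun t : ℝ => t ^ 2) (2 * z.im) z.im := by
      simpa using hasDerivAt_pow 2 z.im
    have hS := h1.const_add (z.re ^ 2)
    have hA := h1.const_sub (z.re ^ 2)
    have hH1 : HasDerivAt (fun t : ℝ => 3 - 32 * (z.re ^ 2 - t ^ 2) -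
        12 * (z.re ^ 2 - t ^ 2) ^ 2 + 3 * (z.re ^ 2 + t ^ 2) ^ 2) _ z.im :=
      ((((hA.const_mul 32).const_sub 3).sub ((hA.pow 2).const_mul 12)).add
        ((hS.pow 2).const_mul 3))
    have hH2 : HasDerivAt (fun t : ℝ => 16 * (z.re ^ 2 + t ^ 2) + 6 * (z.re ^ 2 - t ^ 2) *
        (z.re ^ 2 + t ^ 2)) _ z.im := (hS.const_mul 16).add ((hA.const_mul 6).mul hS)
    have := h0.neg.add (((h0.const_mul 2).mul_const e).mul (hH2.sub hH1))
    refine this.congr_deriv ?_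
    simp
    ring
  rw [e1, e2]
  unfold Ha Hs
  ring

/-- the main part of the squared gradient -/
def W (a s : ℝ) : ℝ := -3 * a + 24 * (2 * a ^ 2 - s ^ 2) + 5 * (4 * a ^ 3 - 3 * a * s ^ 2)

def V (a s : ℝ) : ℝ :=
  s * (36 + 1096 * s ^ 2 + 36 * s ^ 4 - 144 * a ^ 2 - 384 * a + 384 * s ^ 2 * a)

/-- the squared length of the gradient -/
noncomputable def Q (z : ℂ) : ℝ := 1 + 2 * e * W (z.re ^ 2 - z.im ^ 2) (z.re ^ 2 + z.im ^ 2) +
    e ^ 2 * V (z.re ^ 2 - z.im ^ 2) (z.re ^ 2 + z.im ^ 2) - 2 * u z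

theorem grad_sq (z : ℂ) : dx u z ^ 2 + dy u z ^ 2 = Q z := by
  rw [dx_u, dy_u]
  unfold Q
  rw [u_eq]
  unfold Ux Uy W V H Ha Hs
  ring

theorem Q_cont : Continuous Q := by
  have h1 := Complex.continuous_re
  have h2 := Complex.continuous_im
  have h3 := u_cont
  unfold Q W V
  fun_prop

theorem gradNorm_eq : gradNorm u = fun z => √(Q z) := by
  funext z
  unfold gradNorm
  rw [grad_sq]

theorem gradNorm_cont : Continuous (gradNorm u) := by
  rw [gradNorm_eq]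
  exact Q_cont.sqrt

theorem W_le {a s : ℝ} (h1 : |s - 1| ≤ 1 / 10000) (h2 : |a| ≤ s) (h3 : a ≤ 9 / 10) :
    W a s ≤ 25 := by
  have b1 := abs_le.1 h1
  have b2 := abs_le.1 h2
  have hamin : 0 ≤ a + 1.0001 := by linarith [b2.1, b1.2]
  have hmain : 0 ≤ 48 + 18 * a - 48 * a ^ 2 - 20 * a ^ 3 := by
    have := mul_nonneg (mul_nonneg hamin (show 0 ≤ 9 / 10 - a by linarith))
      (show 0 ≤ 20 * a + 45.998 by linarith)
    nlinarith
  have hs2 : 1 - s ^ 2 ≤ 0.0003 := by nlinarith [b1.1, b1.2]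
  have h4 : (1 - s ^ 2) * (24 + 15 * a) ≤ 0.0003 * (24 + 15 * a) :=
    mul_le_mul_of_nonneg_right hs2 (by linarith)
  have e1 : W a s = 24 - (48 + 18 * a - 48 * a ^ 2 - 20 * a ^ 3) + (1 - s ^ 2) * (24 + 15 * a) := by
    unfold W; ring
  rw [e1]
  linarith

theorem V_le {a s : ℝ} (h1 : |s - 1| ≤ 1 / 10000) (h2 : |a| ≤ s) : V a s ≤ 10000 := by
  have b1 := abs_le.1 h1
  have b3 := abs_le.1 h2
  unfold V
  have c1 : s ≤ 1.1 := by linarith [b1.2]
  have c0 : 0 ≤ s := by linarith [b1.1]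
  have c2 : s ^ 2 ≤ 1.21 := by nlinarith
  have c4 : s ^ 4 ≤ 1.5 := by
    have := pow_le_pow_left₀ (sq_nonneg s) c2 2
    rw [← pow_mul] at this
    norm_num at this
    linarith
  have c5 : s ^ 2 * a ≤ 1.4 := by
    have := mul_le_mul_of_nonneg_left (show a ≤ 1.1 by linarith [b3.2]) (sq_nonneg s)
    linarith
  have c6 : 36 + 1096 * s ^ 2 + 36 * s ^ 4 - 144 * a ^ 2 - 384 * a + 384 * s ^ 2 * a ≤ 2500 := by
    have := sq_nonneg a
    linarith [b3.1]
  have := mul_le_mul_of_nonneg_left c6 c0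
  linarith

theorem W_ge {s : ℝ} (h1 : |s - 1| ≤ 1 / 10000) : 25.9 ≤ W s s := by
  have b1 := abs_le.1 h1
  have c0 : 0.9999 ≤ s := by linarith [b1.1]
  have c2 : 0.9998 ≤ s ^ 2 := by nlinarith
  have c3 : 0.9997 ≤ s ^ 3 := by
    have := mul_le_mul c2 c0 (by norm_num) (by positivity)
    rw [← pow_succ] at this
    norm_num at this
    linarith
  have e1 : W s s = -3 * s + 24 * s ^ 2 + 5 * s ^ 3 := by unfold W; ring
  rw [e1]
  linarith [b1.2]

theorem V_nonneg {s : ℝ} (h1 : |s - 1| ≤ 1 / 10000) : 0 ≤ V s s := by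
  have b1 := abs_le.1 h1
  have c0 : 0.9999 ≤ s := by linarith [b1.1]
  have c2 : 0.9998 ≤ s ^ 2 := by nlinarith
  unfold V
  apply mul_nonneg (by linarith)
  have : 0 ≤ s ^ 4 := by positivity
  have h3 : 0 ≤ s ^ 2 * s := by positivity
  have : 384 * s ^ 2 * s = 384 * (s ^ 2 * s) := by ring
  rw [this]
  linarith [b1.2]

/-- A point of maximal stress is close to the first axis. -/
theorem stress_loc {z : ℂ} (hz : z ∈ Gam Om) (hmax : ∀ y ∈ Gam Om, Q y ≤ Q z) :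
    9 / 10 < z.re ^ 2 - z.im ^ 2 := by
  obtain ⟨x, hx, hxG⟩ := axis_point
  have h := hmax _ hxG
  obtain ⟨a, s, ha, hs, hns, hs1, has, hF⟩ := basic hz.1
  obtain ⟨a1, s1, ha1, hs1', hns1, hs11, has1, hF1⟩ := basic hxG.1
  have u1 := ((frontier_iff _).1 hz.1).2
  have u2 := ((frontier_iff _).1 hxG.1).2
  unfold Q at h
  rw [u1, u2, ← ha, ← hs, ← ha1, ← hs1'] at h
  have haa : a1 = s1 := by rw [ha1, hs1']; simp
  rw [haa] at h
  rw [← ha]
  by_contra hcon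
  push Not at hcon
  have hW1 := W_ge hs11
  have hV1 := V_nonneg hs11
  have hV := V_le hs1 has
  have hW := W_le hs1 has hcon
  have hee : e = 1 / 10 ^ 6 := rfl
  rw [hee] at h
  have k1 : (1 / 10 ^ 6 : ℝ) ^ 2 * V a s ≤ (1 / 10 ^ 6) ^ 2 * 10000 :=
    mul_le_mul_of_nonneg_left hV (by norm_num)
  have k2 : 0 ≤ (1 / 10 ^ 6 : ℝ) ^ 2 * V s1 s1 := mul_nonneg (by norm_num) hV1
  have k3 : 2 * (1 / 10 ^ 6 : ℝ) * W a s ≤ 2 * (1 / 10 ^ 6) * 25 :=
    mul_le_mul_of_nonneg_left hW (by norm_num)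
  have k4 : 2 * (1 / 10 ^ 6 : ℝ) * 25.9 ≤ 2 * (1 / 10 ^ 6) * W s1 s1 :=
    mul_le_mul_of_nonneg_left hW1 (by norm_num)
  norm_num at k1 k2 k3 k4 h
  linarith

/-- The result. -/
theorem final : ∃ p xh xc : ℂ, (xh ∈ Gam Om ∧ ∀ y ∈ Gam Om, y ≠ xh → ‖y‖ < ‖xh‖) ∧
    (xc ∈ Gam Om ∧ ∀ y ∈ Gam Om, y ≠ xc → ‖xc‖ < ‖y‖) ∧
    (p ∈ Gam Om ∧ ∀ y ∈ frontier Om, gradNorm u y ≤ gradNorm u p) ∧
    dist p xh < dist p xc := by
  obtain ⟨x, hx, hxG⟩ := axis_point
  obtain ⟨xh, hxh, hmaxh⟩ := compact_Gam.exists_isMaxOn ⟨_, hxG⟩ continuous_norm.continuousOn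
  obtain ⟨xc, hxc, hminc⟩ := compact_Gam.exists_isMinOn ⟨_, hxG⟩ continuous_norm.continuousOn
  obtain ⟨p, hp, hmaxp⟩ := compact_Gam.exists_isMaxOn ⟨_, hxG⟩ Q_cont.continuousOn
  have hmaxh : ∀ y ∈ Gam Om, ‖y‖ ≤ ‖xh‖ := fun y hy => hmaxh hy
  have hminc : ∀ y ∈ Gam Om, ‖xc‖ ≤ ‖y‖ := fun y hy => hminc hy
  have hmaxp : ∀ y ∈ Gam Om, Q y ≤ Q p := fun y hy => hmaxp hy
  have hre := near_loc hxc hminc
  refine ⟨p, xh, xc, ⟨hxh, ?_⟩, ⟨hxc, ?_⟩, ⟨hp, ?_⟩, ?_⟩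
  · intro y hy hne
    rcases (hmaxh y hy).eq_or_lt with h | h
    · exact absurd (far_unique hxh hmaxh hy h) hne
    · exact h
  · intro y hy hne
    rcases (hminc y hy).eq_or_lt with h | h
    · exfalso
      have hmin' : ∀ w ∈ Gam Om, ‖y‖ ≤ ‖w‖ := fun w hw => by rw [← h]; exact hminc w hw
      have hre' := near_loc hy hmin'
      apply hne
      apply Complex.ext
      · rw [hre, hre']
      · have h1 : ‖xc‖ ^ 2 = ‖y‖ ^ 2 := by rw [h]
        rw [norm_sq', norm_sq', hre, hre'] at h1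
        exact (sq_eq_sq₀ hy.2.2 hxc.2.2).1 (by linarith)
    · exact h
  · intro y hy
    rw [gradNorm_eq]
    apply Real.sqrt_le_sqrt
    -- reflect `y` into the quadrant
    set y' : ℂ := ⟨|y.re|, |y.im|⟩ with hy'
    have e1 : y'.re ^ 2 = y.re ^ 2 := sq_abs _
    have e2 : y'.im ^ 2 = y.im ^ 2 := sq_abs _
    have hu : u y' = u y := by rw [u_eq, u_eq, e1, e2]
    have hn : ‖y'‖ = ‖y‖ := by
      apply (sq_eq_sq₀ (norm_nonneg _) (norm_nonneg _)).1
      rw [norm_sq', norm_sq', e1, e2]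
    have hQ : Q y' = Q y := by unfold Q; rw [hu, e1, e2]
    rw [← hQ]
    apply hmaxp
    refine ⟨?_, abs_nonneg _, abs_nonneg _⟩
    rw [frontier_iff, hu, hn]
    exact (frontier_iff y).1 hy
  · have a1 := far_loc hxh hmaxh
    have a2 := stress_loc hp hmaxp
    have s1 := abs_le.1 (s_close hxh.1)
    have s2 := abs_le.1 (s_close hxc.1)
    have s3 := abs_le.1 (s_close hp.1)
    rw [norm_sq'] at s1 s2 s3
    rw [hre] at s2
    have hp1 : 97 / 100 < p.re := by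
      by_contra hcon
      push Not at hcon
      nlinarith [hp.2.1, s3.1]
    have hp2 : p.im < 1 / 4 := by
      by_contra hcon
      push Not at hcon
      nlinarith [hp.2.2, s3.2]
    have hh1 : 7 / 10 < xh.re := by
      by_contra hcon
      push Not at hcon
      nlinarith [hxh.2.1, s1.1]
    have hc1 : xc.im < 11 / 10 := by
      by_contra hcon
      push Not at hcon
      nlinarith [hxc.2.2, s2.2]
    have d1 : dist p xh ^ 2 < dist p xc ^ 2 := by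
      rw [dist_eq_norm, dist_eq_norm, norm_sq', norm_sq']
      simp only [Complex.sub_re, Complex.sub_im, hre]
      have k1 : 97 / 100 * (7 / 10) ≤ p.re * xh.re :=
        mul_le_mul hp1.le hh1.le (by norm_num) (by linarith)
      have k2 : 0 ≤ p.im * xh.im := mul_nonneg hp.2.2 hxh.2.2
      have k3 : p.im * xc.im ≤ 1 / 4 * (11 / 10) :=
        mul_le_mul hp2.le hc1.le hxc.2.2 (by norm_num)
      nlinarith [s1.1, s1.2, s2.1, s2.2]
    exact lt_of_pow_lt_pow_left₀ 2 dist_nonneg d1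

theorem not_disk (c : ℂ) (r : ℝ) : Om ≠ ball c r := by
  intro h
  obtain ⟨p, xh, xc, ⟨hxh, hh⟩, ⟨hxc, hc⟩, -, -⟩ := final
  obtain ⟨x, hx, hxG⟩ := axis_point
  have hr : 0 < r := by
    by_contra hcon
    push Not at hcon
    have h0 : (0:ℂ) ∈ Om := ⟨by simp, by rw [u_zero]; norm_num⟩
    rw [h, ball_eq_empty.2 hcon] at h0
    exact h0
  -- all boundary points have distance `r` from `c`
  have hf : ∀ z, (‖z‖ < 5 / 4 ∧ u z = 0) → dist z c = r := by
    intro z hz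
    have h1 := (frontier_iff z).2 hz
    rw [h, frontier_ball c hr.ne'] at h1
    exact h1
  have key : ∀ z : ℂ, z ∈ frontier Om → (z.re - c.re) ^ 2 + (z.im - c.im) ^ 2 = r ^ 2 ∧
      (-z.re - c.re) ^ 2 + (z.im - c.im) ^ 2 = r ^ 2 ∧
      (z.re - c.re) ^ 2 + (-z.im - c.im) ^ 2 = r ^ 2 := by
    intro z hz
    obtain ⟨h1, h2⟩ := (frontier_iff z).1 hz
    have g : ∀ w : ℂ, w.re ^ 2 = z.re ^ 2 → w.im ^ 2 = z.im ^ 2 →
        (w.re - c.re) ^ 2 + (w.im - c.im) ^ 2 = r ^ 2 := by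
      intro w e1 e2
      have hu : u w = 0 := by rw [u_eq, e1, e2, ← u_eq]; exact h2
      have hn : ‖w‖ = ‖z‖ := by
        apply (sq_eq_sq₀ (norm_nonneg _) (norm_nonneg _)).1
        rw [norm_sq', norm_sq', e1, e2]
      have := hf w ⟨by rw [hn]; exact h1, hu⟩
      rw [← this, dist_eq_norm, norm_sq']
      simp
    refine ⟨g z rfl rfl, ?_, ?_⟩
    · exact g ⟨-z.re, z.im⟩ (by simp) rfl
    · exact g ⟨z.re, -z.im⟩ rfl (by simp)
  -- the centre is the origin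
  obtain ⟨k1, k2, k3⟩ := key _ hxG.1
  simp only [Complex.ofReal_re, Complex.ofReal_im] at k1 k2 k3
  have c1 : c.re = 0 := by nlinarith
  have hxcre : xc.re = 0 := near_loc hxc (fun y hy => by
    rcases eq_or_ne y xc with rfl | hne
    · exact le_refl _
    · exact (hc y hy hne).le)
  obtain ⟨m1, m2, m3⟩ := key _ hxc.1
  have hs2 := abs_le.1 (s_close hxc.1)
  rw [norm_sq', hxcre] at hs2
  have himpos : 0 < xc.im := by
    rcases hxc.2.2.eq_or_lt with h | h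
    · rw [← h] at hs2; norm_num at hs2
    · exact h
  have c2 : c.im = 0 := by nlinarith
  rw [c1, c2] at k1 m1
  rw [hxcre] at m1
  have hne : (x : ℂ) ≠ xc := by
    intro h
    have := congrArg Complex.re h
    rw [hxcre] at this
    simp at this
    linarith
  have hlt := hc _ hxG hne
  have hlt2 : ‖xc‖ ^ 2 < ‖(x : ℂ)‖ ^ 2 := pow_lt_pow_left₀ hlt (norm_nonneg _) two_ne_zero
  rw [norm_sq', norm_sq', hxcre] at hlt2
  simp at hlt2
  nlinarith

theorem fderiv_ne {z : ℂ} (hz : z ∈ frontier Om) : fderiv ℝ u z ≠ 0 := by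
  intro h
  obtain ⟨h1, h2⟩ := (frontier_iff z).1 hz
  -- along the segment to the origin
  have h3 := support (z := z) (z' := 0) h1.le (by rw [norm_zero]; norm_num)
  rw [u_zero, h2, zero_add, zero_sub] at h3
  -- `L z` is the derivative
  have hd : HasDerivAt (fun t : ℝ => u (z + t • (-z))) (fderiv ℝ u z (-z)) 0 := by
    have e1 : HasDerivAt (fun t : ℝ => z + t • (-z)) (-z) 0 := by
      have := ((hasDerivAt_id (0:ℝ)).smul_const (-z)).const_add z
      simpa using this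
    have e2 : HasFDerivAt u (fderiv ℝ u z) (z + (0:ℝ) • (-z)) := by
      rw [zero_smul, add_zero]
      exact (u_cd.differentiable two_ne_zero z).hasFDerivAt
    exact e2.comp_hasDerivAt 0 e1
  rw [h] at hd
  -- but `u (z + t (-z)) ≥ t / 2`
  have hge : ∀ t : ℝ, 0 ≤ t → t ≤ 1 → t / 2 ≤ u (z + t • (-z)) := by
    intro t ht ht1
    have := conc (x := z) (y := 0) h1.le (by rw [norm_zero]; norm_num) (by linarith : 0 ≤ 1 - t) ht (by ring)
    rw [h2, u_zero, smul_zero, add_zero] at this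
    have e1 : z + t • (-z) = (1 - t) • z := by module
    rw [e1]
    linarith
  have hd0 : HasDerivAt (fun t : ℝ => u (z + t • (-z))) 0 0 := by simpa using hd
  have hslope := hd0.tendsto_slope_zero_right
  have : ∀ᶠ t : ℝ in 𝓝[>] 0, 1 / 2 ≤ t⁻¹ • (u (z + (0 + t) • (-z)) - u (z + (0:ℝ) • (-z))) := by
    filter_upwards [Ioo_mem_nhdsGT (one_pos : (0:ℝ) < 1)] with t ht
    have h4 := hge t ht.1.le ht.2.le
    rw [zero_add, zero_smul, add_zero, h2, sub_zero, smul_eq_mul, inv_mul_eq_div,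
      le_div_iff₀ ht.1]
    linarith
  have := ge_of_tendsto hslope this
  norm_num at this

/-- **MP_f43ce7_an, Q1 and Q2** (negated forms).  There is a bounded open convex set `Ω`, symmetric
about both axes, with `C²` boundary, not a disk, with unique farthest and nearest boundary points
`xh`, `xc` in the closed first quadrant, and with a point `p` of maximal stress in the closed first
quadrant, such that `|p - xc| > |p - xh|`. -/
theorem result : ∃ (Ω : Set ℂ) (u : ℂ → ℝ) (τ : ℂ → ℝ) (p xh xc : ℂ),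
    Ω.Nonempty ∧ IsOpen Ω ∧ Bornology.IsBounded Ω ∧ Convex ℝ Ω ∧
    (∀ z ∈ Ω, conj z ∈ Ω ∧ -conj z ∈ Ω) ∧ (∀ c r, Ω ≠ ball c r) ∧ C2Boundary Ω ∧
    IsTorsion Ω u ∧
    (∀ x ∈ frontier Ω, Tendsto (gradNorm u) (𝓝[Ω] x) (𝓝 (τ x))) ∧
    (xh ∈ Gam Ω ∧ ∀ y ∈ Gam Ω, y ≠ xh → ‖y‖ < ‖xh‖) ∧
    (xc ∈ Gam Ω ∧ ∀ y ∈ Gam Ω, y ≠ xc → ‖xc‖ < ‖y‖) ∧
    (p ∈ Gam Ω ∧ ∀ y ∈ frontier Ω, τ y ≤ τ p) ∧
    dist p xc > dist p xh := by
  obtain ⟨p, xh, xc, h1, h2, h3, h4⟩ := final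
  refine ⟨Om, u, gradNorm u, p, xh, xc, ⟨0, by simp, by rw [u_zero]; norm_num⟩, isOpen_Om,
    bounded_Om, ?_, ?_, not_disk, ?_, ?_, ?_, h1, h2, h3, h4⟩
  · intro x hx y hy a b ha hb hab
    refine ⟨?_, ?_⟩
    · have := convex_ball (0 : ℂ) (5 / 4) (mem_ball_zero_iff.2 hx.1)
        (mem_ball_zero_iff.2 hy.1) ha hb hab
      exact mem_ball_zero_iff.1 this
    · refine lt_of_lt_of_le ?_ (conc hx.1.le hy.1.le ha hb hab)
      rcases ha.eq_or_lt with h | h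
      · have hb1 : b = 1 := by linarith
        rw [← h, hb1]
        have := hy.2
        linarith
      · have := mul_pos h hx.2
        have := mul_nonneg hb hy.2.le
        linarith
  · intro z hz
    have g : ∀ w : ℂ, w.re ^ 2 = z.re ^ 2 → w.im ^ 2 = z.im ^ 2 → w ∈ Om := by
      intro w e1 e2
      have hu : u w = u z := by rw [u_eq, u_eq, e1, e2]
      have hn : ‖w‖ = ‖z‖ := by
        apply (sq_eq_sq₀ (norm_nonneg _) (norm_nonneg _)).1
        rw [norm_sq', norm_sq', e1, e2]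
      exact ⟨by rw [hn]; exact hz.1, by rw [hu]; exact hz.2⟩
    exact ⟨g _ (by simp) (by simp), g _ (by simp) (by simp)⟩
  · intro z hz
    refine ⟨u, u_cd, ((frontier_iff z).1 hz).2, fderiv_ne hz, ?_⟩
    have hb : ball (0:ℂ) (5 / 4) ∈ 𝓝 z :=
      isOpen_ball.mem_nhds (mem_ball_zero_iff.2 ((frontier_iff z).1 hz).1)
    filter_upwards [hb] with y hy
    exact ⟨fun h => h.2, fun h => ⟨mem_ball_zero_iff.1 hy, h⟩⟩
  · refine ⟨u_cd.contDiffOn, u_cont.continuousOn, fun z _ => by rw [lap_u]; norm_num,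
      fun z hz => ((frontier_iff z).1 hz).2⟩
  · intro x _
    exact (gradNorm_cont.tendsto x).mono_left nhdsWithin_le_nhds

end Pool.Agent.Results.MP_f43ce7_an.MaximalStressLocation
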